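import Mathlib
import Pool.Agent.Lib_helper65.BookDefs
import Pool.Agent.Lib_helper65.BookBasic
import Pool.Agent.Lib_helper65.BookBlocks
import Pool.Agent.Lib_helper65.BookSmall
import Pool.Agent.Lib_helper65.BookEven
import Pool.Agent.Lib_helper65.BookOE
import Pool.Agent.Lib_helper65.BookOO

/-!
# Super edge-magic labelings of book graphs

For every `n ≥ 5` the book `B_n = K_{1,n} □ K_2` is super edge-magic if and only if `n` is even
or `n ≡ 5 (mod 8)`.
-/

namespace Pool.Agent.Results.MP_a60869_co.SuperEdgeMagicBooks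

open Pool.Agent.Lib_helper65.Book

/-- For every `n ≥ 5`, the book `B_n` is super edge-magic if and only if `n` is even or
`n ≡ 5 (mod 8)`. -/
theorem result : ∀ n : ℕ, 5 ≤ n → (IsSuperEdgeMagic (book n) ↔ (Even n ∨ n % 8 = 5)) := by
  intro n hn
  refine ⟨odd_case n, ?_⟩
  rintro (h | h)
  · rw [Nat.even_iff] at h
    by_cases h6 : n = 6
    · subst h6; exact semSmall6
    have h8 : n % 8 = 0 ∨ n % 8 = 2 ∨ n % 8 = 4 ∨ n % 8 = 6 := by omega
    rcases h8 with h8 | h8 | h8 | h8
    · have := semE8 ((n - 8) / 8)
      rwa [show 8 * ((n - 8) / 8) + 8 = n by omega] at this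
    · have := semE10 ((n - 10) / 8)
      rwa [show 8 * ((n - 10) / 8) + 10 = n by omega] at this
    · have := semE12 ((n - 12) / 8)
      rwa [show 8 * ((n - 12) / 8) + 12 = n by omega] at this
    · have := semE14 ((n - 14) / 8)
      rwa [show 8 * ((n - 14) / 8) + 14 = n by omega] at this
  · by_cases h53 : n ≤ 53
    · have : n = 5 ∨ n = 13 ∨ n = 21 ∨ n = 29 ∨ n = 37 ∨ n = 45 ∨ n = 53 := by omega
      rcases this with rfl | rfl | rfl | rfl | rfl | rfl | rfl
      · exact semSmall5
      · exact semSmall13
      · exact semSmall21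
      · exact semSmall29
      · exact semSmall37
      · exact semSmall45
      · exact semSmall53
    · have h16 : n % 16 = 5 ∨ n % 16 = 13 := by omega
      rcases h16 with h16 | h16
      · have := semOE ((n - 69) / 16)
        rwa [show 16 * ((n - 69) / 16) + 69 = n by omega] at this
      · have := semOO ((n - 61) / 16)
        rwa [show 16 * ((n - 61) / 16) + 61 = n by omega] at this

end Pool.Agent.Results.MP_a60869_co.SuperEdgeMagicBooks
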